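import Pool.Agent.Results.MP_b454d1_nt.SqrtWindowFewExceptions
import Pool.Agent.Q138.PS.TW

/-!
# Rivera's window for the even numbers `⌊α P(n)⌋`

Let `q ≥ 2`. Outside a set of real numbers of Hausdorff dimension at most `q / (q + 1 / (q 2 ^ (q - 1)))` (that is
`8 / 9` for `q = 2`) every `α > 0` has the following property. For ALL integral polynomials `P` of degree `q` with positive
leading coefficient and coefficients of size at most `N ^ η`, and for all but at most `N ^ (1 - η)` of the `n ≤ N`: if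
`M = ⌊α P(n)⌋` is even, there are at least `δ 𝔖(M) √M / (log M) ^ 2` primes `p` with `√M < p < 4 √M` such that `M - p` has at
most three prime factors, all of them at least `M ^ (1 / 5) / 2`; and also at least as many primes `p` with
`√M < p < 4 √M` such that `M - p` has at most two prime factors, all of them at least `M ^ (3 / 22) / 2`.
-/

set_option autoImplicit false

namespace Pool.Agent.Results.MP_b454d1_nt.AlongRealMultiples

open Finset Filter Topology
open Pool.Agent.Q138.PS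
open Pool.Agent.Results.MP_b454d1_nt.SqrtWindowFewExceptions (sing inSqrt)

/-- `M` has at least `δ 𝔖(M) √M / (log M) ^ 2` primes `p` with `√M < p < 4 √M` such that `M - p` has at most three prime
factors, all of them at least `M ^ (1 / 5) / 2`, and at least as many for which `M - p` has at most two prime factors, all of
them at least `M ^ (3 / 22) / 2` -/
def Good (δ : ℝ) (M : ℕ) : Prop :=
  δ * sing M * (√(M : ℝ) / Real.log M ^ 2) ≤ (inSqrt 3 ((M : ℝ) ^ (1 / 5 : ℝ) / 2) M : ℝ) ∧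
  δ * sing M * (√(M : ℝ) / Real.log M ^ 2) ≤ (inSqrt 2 ((M : ℝ) ^ (3 / 22 : ℝ) / 2) M : ℝ)

open Classical in
/-- the number of the `1 ≤ n ≤ N` for which `M = ⌊α P(n)⌋` is even and not `Good δ` -/
noncomputable def exceptions (δ α : ℝ) (P : Polynomial ℤ) (N : ℕ) : ℕ :=
  ((Icc 1 N).filter fun n : ℕ => Even ⌊α * ((P.eval (n : ℤ) : ℤ) : ℝ)⌋₊ ∧
    ¬ Good δ ⌊α * ((P.eval (n : ℤ) : ℤ) : ℝ)⌋₊).card

/-- the exceptional numbers -/
def bad (δ : ℝ) (M : ℕ) : Prop := Even M ∧ ¬ Good δ M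

theorem seed : ∃ δ C : ℝ, 0 < δ ∧ 0 < C ∧ ∀ X : ℕ, 1 ≤ X → cn (bad δ) X ≤ C * (X : ℝ) ^ (1 - 1 / 4 : ℝ) := by
  classical
  obtain ⟨δ1, C1, hδ1, hC1, h1⟩ := SqrtWindowFewExceptions.result 3 (1 / 2) (1 / 5) (1 / 4)
    (Or.inl ⟨rfl, le_rfl, by norm_num⟩) (by norm_num) (by norm_num)
  obtain ⟨δ2, C2, hδ2, hC2, h2⟩ := SqrtWindowFewExceptions.result 2 (6 / 11) (3 / 22) (3 / 4 - 13 / 22)
    (Or.inr ⟨rfl, le_rfl, by norm_num⟩) (by norm_num) (by norm_num)
  have hs : ∀ M : ℕ, 0 ≤ sing M * (√(M : ℝ) / Real.log M ^ 2) := by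
    intro M
    have : 0 ≤ sing M := by
      unfold sing
      refine prod_nonneg fun p hp => ?_
      rw [mem_erase, Nat.mem_primeFactors] at hp
      have h3 : 3 ≤ p := by
        have := hp.2.1.two_le
        omega
      have h3' : (3 : ℝ) ≤ p := by exact_mod_cast h3
      exact div_nonneg (by linarith) (by linarith)
    positivity
  refine ⟨min δ1 δ2, C1 + C2, by positivity, by positivity, fun X hX => ?_⟩
  have hX1 : (1 : ℝ) ≤ X := by exact_mod_cast hX
  have e1 : (1 : ℝ) - 1 / 4 = 2 * (1 / 2) - 1 / 2 + 1 / 4 := by norm_num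
  have e2 : (1 : ℝ) - 1 / 4 = 2 * (6 / 11) - 1 / 2 + (3 / 4 - 13 / 22) := by norm_num
  have g1 := h1 X hX
  have g2 := h2 X hX
  rw [← e1] at g1
  rw [← e2] at g2
  have g3 : cn (bad (min δ1 δ2)) X ≤
      (((Icc 1 X).filter (fun N : ℕ => Even N ∧
        (inSqrt 3 ((N : ℝ) ^ (1 / 5 : ℝ) / 2) N : ℝ) < δ1 * sing N * (√(N : ℝ) / Real.log N ^ 2))).card : ℝ) +
      (((Icc 1 X).filter (fun N : ℕ => Even N ∧
        (inSqrt 2 ((N : ℝ) ^ (3 / 22 : ℝ) / 2) N : ℝ) < δ2 * sing N * (√(N : ℝ) / Real.log N ^ 2))).card : ℝ) := by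
    unfold cn
    norm_cast
    refine (card_le_card ?_).trans (card_union_le _ _)
    intro M hM
    rw [mem_filter] at hM
    obtain ⟨hM1, hM2, hM3⟩ := hM
    rw [mem_union, mem_filter, mem_filter]
    by_contra hcon
    apply hM3
    rw [not_or] at hcon
    have k1 : δ1 * sing M * (√(M : ℝ) / Real.log M ^ 2) ≤ (inSqrt 3 ((M : ℝ) ^ (1 / 5 : ℝ) / 2) M : ℝ) :=
      not_lt.1 fun h => hcon.1 ⟨hM1, hM2, h⟩
    have k2 : δ2 * sing M * (√(M : ℝ) / Real.log M ^ 2) ≤ (inSqrt 2 ((M : ℝ) ^ (3 / 22 : ℝ) / 2) M : ℝ) :=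
      not_lt.1 fun h => hcon.2 ⟨hM1, hM2, h⟩
    constructor
    · refine le_trans ?_ k1
      rw [mul_assoc, mul_assoc]
      exact mul_le_mul_of_nonneg_right (min_le_left _ _) (hs M)
    · refine le_trans ?_ k2
      rw [mul_assoc, mul_assoc]
      exact mul_le_mul_of_nonneg_right (min_le_right _ _) (hs M)
  calc cn (bad (min δ1 δ2)) X ≤ C1 * (X : ℝ) ^ (1 - 1 / 4 : ℝ) + C2 * (X : ℝ) ^ (1 - 1 / 4 : ℝ) :=
        g3.trans (add_le_add g1 g2)
    _ = _ := by ring

/-- **Theorem.** There is an absolute constant `δ > 0` such that for each `q ≥ 2` there is a set `E` of Hausdorff dimension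
at most `q / (q + 1 / (q 2 ^ (q - 1)))` such that for each `α > 0` outside `E` there is `η > 0` with the following property:
for all large `N` and ALL `P ∈ ℤ[X]` of degree `q` with positive leading coefficient and coefficients of size at most
`N ^ η`, for all but at most `N ^ (1 - η)` of the `n ≤ N` the number `M = ⌊α P(n)⌋` is odd or `Good δ`. -/
theorem result : ∃ δ : ℝ, 0 < δ ∧ ∀ q : ℕ, 2 ≤ q →
    ∃ E : Set ℝ, dimH E ≤ ENNReal.ofReal (q / (q + 1 / ((q : ℝ) * 2 ^ (q - 1)))) ∧ ∀ α : ℝ, 0 < α → α ∉ E →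
      ∃ η : ℝ, 0 < η ∧ ∀ᶠ N : ℕ in atTop, ∀ P : Polynomial ℤ,
        P.natDegree = q → 0 < P.leadingCoeff → (∀ j, |((P.coeff j : ℤ) : ℝ)| ≤ (N : ℝ) ^ η) →
        (exceptions δ α P N : ℝ) ≤ (N : ℝ) ^ (1 - η) := by
  classical
  obtain ⟨δ, C, hδ, hC, h0⟩ := seed
  refine ⟨δ, hδ, fun q hq => ?_⟩
  obtain ⟨E, hE, h⟩ := exc_nat q hq (fun _ : Unit => bad δ)
  refine ⟨E, hE, fun α hα hαE => ?_⟩
  obtain ⟨η, hη, hη4, -, h1⟩ := h α hα hαE ()
  refine ⟨min (1 / 4 / 4) (η / 2), by positivity, ?_⟩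
  have h3 := h1 (1 / 4) C (by norm_num) (by norm_num) (fun Y hY => h0 Y (by omega))
  filter_upwards [h3, eventually_ge_atTop 1] with N hN hN1 P hdeg hlead hco
  have hN1r : (1 : ℝ) ≤ N := by exact_mod_cast hN1
  have h4 := hN P hdeg hlead (fun j => (hco j).trans (Real.rpow_le_rpow_of_exponent_le hN1r
    ((min_le_right _ _).trans (by linarith))))
  have h5 : (exceptions δ α P N : ℝ) ≤ cnP (bad δ) α P N := by
    unfold exceptions cnP cn
    norm_cast
    refine card_le_card ?_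
    intro n hn
    rw [mem_filter] at hn ⊢
    exact hn
  exact h5.trans h4

end Pool.Agent.Results.MP_b454d1_nt.AlongRealMultiples
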