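import Pool.Agent.Q120.GM.Gold6
import Pool.Agent.Q120.GM.Exists

/-!
# Gaps between the Goldbach summands in the sieved models of the primes

`Q` is the level: the random set contains each `n` coprime to `Q` independently with
probability `min(1, (Q/φ(Q))/log n)`, and no other `n`. For `Q = 1` this is the model of Cramér.

A summand of `N` is an element `q` of the random set such that `N - q` belongs to it too. The longest stretch after
`u` which can be free of summands of `N` has the length `log u · log N · (log u + log N) / S(N)`, for all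
positions `u` from a power of `N` up to `N/3`, where `S(N)` is the singular series of `N` at level `Q`.
-/

set_option autoImplicit false

namespace Pool.Agent.Results.MP_b454d1_nt.GoldbachGapLaw

open Finset MeasureTheory Filter Pool.Agent.Q120.GM
open scoped Topology

/-- **The extremal gaps between Goldbach summands at all scales.** -/
theorem result : (∀ Q : ℕ, IsModel (prodMeasure (level Q)) (level Q) (trueSet (ι := ℕ))) ∧
    ∀ (Ω : Type) (_ : MeasurableSpace Ω) (μ : Measure Ω) (_ : IsProbabilityMeasure μ) (A : Ω → Set ℕ) (Q : ℕ),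
      1 ≤ Q → IsModel μ (level Q) A →
        (∀ᵐ ω ∂μ, ∀ ε β : ℝ, 0 < ε → 0 < β → ∀ᶠ N : ℕ in atTop, 0 < sing3 Q N → ∀ u : ℕ, (N : ℝ) ^ β ≤ u → 3 * u ≤ N →
          Hit (A ω) N u ((1 + ε) * scale Q N u)) ∧
        (∀ β : ℝ, 0 < β → β < 1 → ∀ᵐ ω ∂μ, ∀ ε : ℝ, 0 < ε → ∀ r : ℕ, 0 < sing3 Q r → ∀ᶠ X : ℕ in atTop, ∃ N u : ℕ,
          X ≤ N ∧ N ≤ 4 * X ∧ N ≡ r [MOD Q] ∧ (N : ℝ) ^ β / 2 ≤ u ∧ (u : ℝ) ≤ 3 * (N : ℝ) ^ β ∧
            ¬ Hit (A ω) N u ((1 - ε) * scale Q N u)) ∧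
        (∀ᵐ ω ∂μ, ∀ ε : ℝ, 0 < ε → ∀ᶠ N : ℕ in atTop, 0 < sing3 Q N →
          ∃ q : ℕ, q ∈ A ω ∧ N - q ∈ A ω ∧ Real.sqrt N < q ∧
            (q : ℝ) ≤ Real.sqrt N + (1 / 2 + ε) * Real.log N ^ 3 / sing3 Q N) :=
  ⟨fun Q => isModel (level Q) (level_nonneg Q) (level_le_one Q), fun _ _ _ _ _ _ hQ hA =>
    ⟨gold_upper hA hQ, fun _ hβ hβ1 => gold_lower hA hQ hβ hβ1, gold_sqrt hA hQ⟩⟩

end Pool.Agent.Results.MP_b454d1_nt.GoldbachGapLaw
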