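import Pool.Agent.Q138.PS.XM
import Pool.Agent.Results.MP_b454d1_nt.SqrtWindowFewExceptions

/-!
# Rivera's window for all the even numbers close to the powers of a real number

Let `r = 3`, `1 / 2 ≤ τ < 1`, `ζ = 2 τ / 5`, or `r = 2`, `6 / 11 ≤ τ < 1`, `ζ = τ / 4`, and let `l < 1`. Outside a set of
real numbers of Hausdorff dimension at most `(2 τ - 1 / 2) / (1 - l)` every `α > 1` has the following property. There is
`δ > 0` such that for all algebraic numbers `c > 0`, all integers `j`, all real `D` and all large `n`: for ALL even numbers `M`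
with `|M - c n^j α^n| ≤ D (c n^j α^n)^l` there are at least `δ 𝔖(M) √M / (log M) ^ 2` primes `p` with `√M < p < 4 √M` such that
`M - p` has at most `r` prime factors, all of them at least `M ^ ζ / 2`.
-/

set_option autoImplicit false

namespace Pool.Agent.Results.MP_b454d1_nt.NearPowers

open Finset Filter Topology
open Pool.Agent.Q138.PS
open Pool.Agent.Results.MP_b454d1_nt.SqrtWindowFewExceptions (sing inSqrt)

/-- `M` has at least `δ 𝔖(M) √M / (log M) ^ 2` primes `p` with `√M < p < 4 √M` such that `M - p` has at most `r` prime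
factors, all of them at least `M ^ ζ / 2` -/
def Good (r : ℕ) (ζ δ : ℝ) (M : ℕ) : Prop :=
  δ * sing M * (√(M : ℝ) / Real.log M ^ 2) ≤ (inSqrt r ((M : ℝ) ^ ζ / 2) M : ℝ)

/-- **Theorem.** Let `r = 3`, `1 / 2 ≤ τ < 1`, `ζ = 2 τ / 5`, or `r = 2`, `6 / 11 ≤ τ < 1`, `ζ = τ / 4`, and let `l < 1`.
There is a set `E` of real numbers of Hausdorff dimension at most `(2 τ - 1 / 2) / (1 - l)` such that for each `α > 1` outside
`E` there is `δ > 0` such that for all algebraic `c > 0`, all integers `j`, all real `D` and all large `n`: all even `M ≥ 1` with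
`|M - c n^j α^n| ≤ D (c n^j α^n)^l` are `Good r ζ δ`. -/
theorem result (r : ℕ) (τ ζ l : ℝ)
    (hpar : (r = 3 ∧ 1 / 2 ≤ τ ∧ ζ = 2 / 5 * τ) ∨ (r = 2 ∧ 6 / 11 ≤ τ ∧ ζ = τ / 4)) (hτ : τ < 1) (hl : l < 1) :
    ∃ E : Set ℝ, dimH E ≤ ENNReal.ofReal ((2 * τ - 1 / 2) / (1 - l)) ∧ ∀ α : ℝ, 1 < α → α ∉ E →
      ∃ δ : ℝ, 0 < δ ∧ ∀ c : ℝ, 0 < c → IsAlgebraic ℚ c → ∀ (j : ℤ) (D : ℝ), ∀ᶠ n : ℕ in atTop,
        ∀ M : ℕ, 1 ≤ M → Even M → NearPow α c j D l n M → Good r ζ δ M := by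
  classical
  have hτ0 : 1 / 2 ≤ τ := by
    rcases hpar with h | h
    · exact h.2.1
    · linarith [h.2.1]
  have hs := fun k : ℕ => SqrtWindowFewExceptions.result r τ ζ (1 / ((k : ℝ) + 1)) hpar hτ (by positivity)
  choose δ C hδ hC h0 using hs
  obtain ⟨E, hE, hg⟩ := pow_alg_inf (fun (_ : Unit) (k : ℕ) => {M : ℕ | 1 ≤ M ∧ (Even M ∧ ¬ Good r ζ (δ k) M)})
    (2 * τ - 1 / 2) l (by linarith) hl fun _ k => ⟨|C k|, cn_pow (by
      have : (0 : ℝ) < 1 / ((k : ℝ) + 1) := by positivity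
      linarith) fun X hX => le_trans (by
        unfold cn
        refine Nat.cast_le.2 (card_le_card ?_)
        intro M hM
        simp only [Finset.mem_filter] at hM ⊢
        exact ⟨hM.1, hM.2.1, not_le.1 hM.2.2⟩) (h0 k X hX)⟩
  refine ⟨E, hE, fun α hα hαE => ?_⟩
  obtain ⟨k, hk⟩ := hg α hα hαE ()
  refine ⟨δ k, hδ k, fun c hc hca j D => ?_⟩
  filter_upwards [hk c hc hca j D] with n hn M hM1 hM2 hM
  by_contra hcon
  exact hn M hM ⟨hM1, hM2, hcon⟩

end Pool.Agent.Results.MP_b454d1_nt.NearPowers
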