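import Pool.Agent.Q253.Thin.FamilyS

/-!
# A set of almost twin primes with `O(log ^ 3 x)` elements up to `x` for the windows `(√N, 4 √N)` of ALL even `N`

We show that there are a `t` and one set `S` of primes `p` such that `p + 2` or `p - 2` has no prime factor
`≤ p ^ (1/t)`, with only `O(log ^ 3 x)` elements up to `x`, such that for every large even `N` at least `c log N` of the
elements `p ∈ S` in the window `√N < p < 4 √N` have the property that `N - p` has no prime factor `≤ N ^ (1/t)`
and `p + s` is a prime or a product of two primes `> N ^ (1/18)`, where `s = 2` or `s = -2` is any sign which is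
possible modulo `3`.

Libraries: `Y840.CT.GenF` (Chen's theorem for systems of shifts), `Y151.HS.FLC` (fundamental lemma), starting files.
-/

set_option autoImplicit false

namespace Pool.Agent.Results.MP_b454d1_nt.SparseWindows

open Finset Filter
open Pool.Agent.Y840.CT Pool.Agent.Q253.Thin

/-- `k` has no prime factor `≤ z` -/
def Free (z : ℝ) (k : ℤ) : Prop := ∀ q : ℕ, q.Prime → (q : ℤ) ∣ k → z < q

/-- `n` is a prime or a product of two primes, and all its prime factors are larger than `z` -/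
def AlmostPrime (z : ℝ) (n : ℕ) : Prop :=
  (n.Prime ∨ ∃ a b : ℕ, a.Prime ∧ b.Prime ∧ n = a * b) ∧ ∀ q : ℕ, q.Prime → q ∣ n → z < q

/-- the sign `s` fits to `N`: `s = 2` or `s = -2`, and `3` divides `N` or `N + s` -/
def Fit (N s : ℤ) : Prop := (s = 2 ∨ s = -2) ∧ ((3 : ℤ) ∣ N ∨ (3 : ℤ) ∣ N + s)

theorem fit_exists (N : ℤ) : ∃ s : ℤ, Fit N s := by
  have h3 : N % 3 = 0 ∨ N % 3 = 1 ∨ N % 3 = 2 := by omega
  rcases h3 with h | h | h
  · exact ⟨2, Or.inl rfl, Or.inl (by omega)⟩
  · exact ⟨2, Or.inl rfl, Or.inr (by omega)⟩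
  · exact ⟨-2, Or.inr rfl, Or.inr (by omega)⟩

/-- the shifts -/
def G (N s : ℤ) : Finset ℤ := {-s, N}

lemma rho_lt {N : ℕ} (hN : Even N) {s : ℤ} (hf : Fit N s) {q : ℕ} (hq : q.Prime) : rho (G N s) q < q := by
  obtain ⟨h1, h2⟩ := hf
  have hNe : (2 : ℤ) ∣ N := by exact_mod_cast hN.two_dvd
  have hcard : rho (G N s) q ≤ 3 := by
    unfold rho G
    refine card_image_le.trans ((card_insert_le _ _).trans ?_)
    have : ({-s, (N : ℤ)} : Finset ℤ).card ≤ 2 := card_le_two
    omega
  rcases Nat.lt_or_ge q 4 with h5 | h5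
  · interval_cases q
    · exact absurd hq Nat.not_prime_zero
    · exact absurd hq Nat.not_prime_one
    · have : (insert 0 (G N s)).image (fun h : ℤ => h % ((2 : ℕ) : ℤ)) ⊆ {0} := by
        intro z hz
        rw [mem_image] at hz
        obtain ⟨h, hh, rfl⟩ := hz
        unfold G at hh
        simp only [mem_insert, mem_singleton] at hh
        rw [mem_singleton]
        push_cast
        rcases h1 with rfl | rfl <;> rcases hh with rfl | rfl | rfl <;> omega
      have := card_le_card this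
      unfold rho
      rw [card_singleton] at this
      omega
    · have : (insert 0 (G N s)).image (fun h : ℤ => h % ((3 : ℕ) : ℤ)) ⊆ {0, (-s) % 3} := by
        intro z hz
        rw [mem_image] at hz
        obtain ⟨h, hh, rfl⟩ := hz
        unfold G at hh
        simp only [mem_insert, mem_singleton] at hh
        rw [mem_insert, mem_singleton]
        push_cast
        rcases h1 with rfl | rfl <;> rcases hh with rfl | rfl | rfl <;> omega
      have h6 := card_le_card this
      have h7 : ({0, (-s) % 3} : Finset ℤ).card ≤ 2 := card_le_two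
      unfold rho
      omega
  · omega

lemma sysG {N X : ℕ} (hN : Even N) (hX : 2 ≤ X) {s : ℤ} (hf : Fit N s) : SysF 2 X (fun _ => G N s) (-s) where
  card q _ := card_le_two
  ne := by
    rcases hf.1 with rfl | rfl <;> norm_num
  size := by
    rcases hf.1 with rfl | rfl <;> norm_num <;> exact hX
  mem q _ := by simp [G]
  loc q hq := rho_lt hN hf hq

lemma sysT {s : ℤ} (hs : s = 2 ∨ s = -2) : SysS 2 (fun _ => {-s}) where
  card q _ := by simp
  loc q hq := by
    rw [rho_single]
    split_ifs with h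
    · exact hq.one_lt
    · rcases hq.two_le.eq_or_lt with h2 | h2
      · exfalso
        apply h
        rw [← h2]
        rcases hs with rfl | rfl <;> norm_num
      · exact h2

/-- **A sparse set of almost twin primes for the windows of all even numbers.** There are `t ≥ 1`, `c, C > 0` and a set
`S` of primes `p` such that `p + 2` or `p - 2` has no prime factor `≤ p ^ (1/t)`, with at most `C log ^ 3 x` elements up to
`x`, such that for all large even `N` and ALL signs `s` which fit to `N` (there is such a sign for every `N`) at least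
`c log N` primes `p ∈ S` with `√N < p < 4 √N` have the property: `p + s` is a prime or a product of two primes
`> N ^ (1/18)`, and `p + s`, `N - p` have no prime factor `≤ N ^ (1/t)`. -/
theorem result : (∀ N : ℤ, ∃ s : ℤ, Fit N s) ∧
    ∃ (t : ℕ) (c C : ℝ) (S : Set ℕ), 1 ≤ t ∧ 0 < c ∧ 0 < C ∧
    (∀ p ∈ S, p.Prime ∧ (Free ((p : ℝ) ^ (1 / (t : ℝ))) (p + 2) ∨ Free ((p : ℝ) ^ (1 / (t : ℝ))) (p - 2))) ∧
    (∀ x : ℕ, 2 ≤ x → ∃ T : Finset ℕ, (∀ p ∈ S, p ≤ x → p ∈ T) ∧ (T.card : ℝ) ≤ C * Real.log x ^ 3) ∧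
    ∃ N₀ : ℕ, ∀ N : ℕ, N₀ ≤ N → Even N → ∀ s : ℤ, Fit N s → ∃ T : Finset ℕ,
      (∀ p ∈ T, p ∈ S ∧ Real.sqrt N < p ∧ (p : ℝ) < 4 * Real.sqrt N ∧ Free ((N : ℝ) ^ (1 / (t : ℝ))) (p + s) ∧
        AlmostPrime ((N : ℝ) ^ (1 / 18 : ℝ)) ((p : ℤ) + s).natAbs ∧ Free ((N : ℝ) ^ (1 / (t : ℝ))) (N - p)) ∧
      c * Real.log N ≤ T.card := by
  classical
  refine ⟨fit_exists, ?_⟩
  obtain ⟨t0, ht0, c0, hc0, hgen, -⟩ := genF 2
  obtain ⟨C0, hC0, hup⟩ := upperS 2 t0 ht0
  obtain ⟨cV, hcV, hVlow⟩ := VF_low 2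
  obtain ⟨C2, hC2, hVup⟩ := VF_two
  obtain ⟨X₁, hX₁⟩ := hgen (1 / 2) (by norm_num)
  obtain ⟨X₂, hX₂⟩ := hup (1 / 2) (by norm_num)
  obtain ⟨X₃, hX₃⟩ := PI_upper
  obtain ⟨X₄, hX₄⟩ := PI_lower
  set ε : ℝ := min (c0 / 2) 1 with hε
  have hε0 : 0 < ε := by positivity
  have e1 : ε ≤ c0 / 2 := min_le_left _ _
  have e2 : ε ≤ 1 := min_le_right _ _
  obtain ⟨K, hK, X₅, hX₅⟩ := familyS 2 t0 ht0 3 (1 / 2) ε (by norm_num) hε0
  have ht0r : (0 : ℝ) < t0 := by exact_mod_cast ht0
  -- `K log ^ 3` primes are available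
  obtain ⟨X₆, hX₆⟩ : ∃ X₆ : ℕ, ∀ x : ℕ, X₆ ≤ x → K * 8 * Real.log x ^ 3 ≤ ((PI x (2 * x)).card : ℝ) := by
    have h2 := (isLittleO_log_rpow_rpow_atTop (s := 1) ((4 : ℕ) : ℝ) (by norm_num)).def
      (show (0 : ℝ) < 1 / (16 * K) by positivity)
    obtain ⟨x₂, h₂⟩ := eventually_atTop.1 (tendsto_natCast_atTop_atTop (R := ℝ) |>.eventually h2)
    refine ⟨max (max X₄ x₂) 3, fun x hx => ?_⟩
    have g1 := hX₄ x ((le_max_left _ _).trans ((le_max_left _ _).trans hx))
    have g2 := h₂ x ((le_max_right _ _).trans ((le_max_left _ _).trans hx))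
    have g3 : 3 ≤ x := (le_max_right _ _).trans hx
    have hx0 : (0 : ℝ) < x := by exact_mod_cast (by omega : 0 < x)
    have hl : 0 < Real.log x := Real.log_pos (by exact_mod_cast (by omega : 1 < x))
    rw [Real.rpow_natCast, Real.rpow_one, Real.norm_of_nonneg (by positivity), Real.norm_of_nonneg hx0.le,
      div_mul_eq_mul_div, one_mul, le_div_iff₀ (by positivity)] at g2
    refine le_trans ?_ g1
    rw [← mul_div_assoc, le_div_iff₀ hl]
    have h3 : K * 8 * Real.log x ^ 3 * Real.log x = Real.log x ^ 4 * (16 * K) / 2 := by ring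
    rw [h3]
    linarith
  -- the sets at the scales `x = 2 ^ i`
  set M : ℕ := max (max (max X₁ X₂) (max X₃ X₄)) (max (max X₅ X₆) 8) with hM
  have step : ∀ i : ℕ, ∃ S : Finset ℕ, (∀ p ∈ S, p.Prime ∧ 2 ^ i < p ∧ p ≤ 2 * 2 ^ i ∧
      (Free ((p : ℝ) ^ (1 / ((2 * t0 : ℕ) : ℝ))) (p + 2) ∨ Free ((p : ℝ) ^ (1 / ((2 * t0 : ℕ) : ℝ))) (p - 2))) ∧
      (S.card : ℝ) ≤ 32 * K * (C0 + 1) * C2 * i ^ 2 ∧ (M ≤ i → ∀ N : ℕ, Even N → N ≤ (2 ^ i) ^ 2 →
        ∀ s : ℤ, Fit N s → ∃ T : Finset ℕ, (∀ p ∈ T, p ∈ S ∧ Free ((N : ℝ) ^ (1 / ((2 * t0 : ℕ) : ℝ))) (p + s) ∧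
          AlmostPrime ((N : ℝ) ^ (1 / 18 : ℝ)) ((p : ℤ) + s).natAbs ∧ Free ((N : ℝ) ^ (1 / ((2 * t0 : ℕ) : ℝ))) (N - p)) ∧
          c0 * K * cV / 16 * Real.log ((2 ^ i : ℕ) : ℝ) ≤ T.card) := by
    intro i
    by_cases hi : M ≤ i
    swap
    · refine ⟨∅, by simp, ?_, fun hi' => absurd hi' hi⟩
      rw [card_empty, Nat.cast_zero]
      positivity
    set x : ℕ := 2 ^ i with hx
    have hMx : M ≤ x := hi.trans Nat.lt_two_pow_self.le
    have hx1 : X₁ ≤ x := le_trans (le_trans (le_max_left _ _) (le_max_left _ _)) ((le_max_left _ _).trans hMx)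
    have hx2 : X₂ ≤ x := le_trans (le_trans (le_max_right _ _) (le_max_left _ _)) ((le_max_left _ _).trans hMx)
    have hx3 : X₃ ≤ x := le_trans (le_trans (le_max_left _ _) (le_max_right _ _)) ((le_max_left _ _).trans hMx)
    have hx4 : X₄ ≤ x := le_trans (le_trans (le_max_right _ _) (le_max_right _ _)) ((le_max_left _ _).trans hMx)
    have hx5 : X₅ ≤ x := le_trans (le_trans (le_max_left _ _) (le_max_left _ _)) ((le_max_right _ _).trans hMx)
    have hx6 : X₆ ≤ x := le_trans (le_trans (le_max_right _ _) (le_max_left _ _)) ((le_max_right _ _).trans hMx)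
    have hx8 : 8 ≤ x := le_trans (le_max_right _ _) ((le_max_right _ _).trans hMx)
    have hxr : (8 : ℝ) ≤ x := by exact_mod_cast hx8
    have hx0 : (0 : ℝ) < x := by linarith
    have hl : 0 < Real.log x := Real.log_pos (by linarith)
    have hlX : Real.log ((2 * x : ℕ) : ℝ) ≤ 2 * Real.log x := by
      have h1 : ((2 * x : ℕ) : ℝ) ≤ (x : ℝ) ^ 2 := by
        push_cast
        nlinarith
      have h2 := Real.log_le_log (by positivity) h1
      rwa [Real.log_pow, Nat.cast_ofNat] at h2
    have hlX0 : 0 < Real.log ((2 * x : ℕ) : ℝ) := Real.log_pos (by exact_mod_cast (by omega : 1 < 2 * x))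
    have hlX1 : Real.log x ≤ Real.log ((2 * x : ℕ) : ℝ) :=
      Real.log_le_log hx0 (by exact_mod_cast (by omega : x ≤ 2 * x))
    set m : ℝ := K * 8 * Real.log x ^ 3 with hm
    have hm0 : 0 < m := by positivity
    have hmP : m ≤ (PI x (2 * x)).card := hX₆ x hx6
    have hP0 : (0 : ℝ) < (PI x (2 * x)).card := lt_of_lt_of_le hm0 hmP
    have hPlow := hX₄ x hx4
    have hPup := hX₃ (2 * x) (by omega) x (2 * x) (by omega)
    have hAB : (1 / 2 : ℝ) * ((2 * x : ℕ) : ℝ) ≤ ((2 * x : ℕ) : ℝ) - x := by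
      push_cast
      linarith
    have hABe : ((2 * x : ℕ) : ℝ) - x = x := by
      push_cast
      ring
    -- `m / |P|`
    have hp1 : m * (Real.log x / (4 * x)) ≤ m / (PI x (2 * x)).card := by
      rw [div_eq_mul_inv m]
      apply mul_le_mul_of_nonneg_left _ hm0.le
      rw [← one_div, div_le_div_iff₀ (by positivity) hP0]
      rw [← mul_div_assoc, le_div_iff₀ hlX0] at hPup
      push_cast at hPup
      have h2 := mul_le_mul_of_nonneg_left hlX1 hP0.le
      push_cast at h2
      linarith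
    have hp2 : m / (PI x (2 * x)).card ≤ m * (2 * Real.log x / x) := by
      rw [div_eq_mul_inv m]
      apply mul_le_mul_of_nonneg_left _ hm0.le
      rw [← one_div, div_le_div_iff₀ hP0 (by positivity)]
      have h2 : (x : ℝ) / 2 ≤ (PI x (2 * x)).card * Real.log x := by
        have h3 := mul_le_mul_of_nonneg_right hPlow hl.le
        have h4 : 1 / 2 * ((x : ℝ) / Real.log x) * Real.log x = x / 2 := by
          field_simp
        rw [h4] at h3
        exact h3
      linarith
    set I1 : Finset (ℕ × ℤ) := ((range (x ^ 2 + 1)) ×ˢ ({2, -2} : Finset ℤ)).filter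
      (fun i => Even i.1 ∧ Fit i.1 i.2) with hI1
    set I : Finset ((ℕ × ℤ) ⊕ ℤ) := I1.disjSum ({2, -2} : Finset ℤ) with hI
    set F : (ℕ × ℤ) ⊕ ℤ → ℕ → Finset ℤ :=
      Sum.elim (fun i => fun _ => G i.1 i.2) (fun s => fun _ => {-s}) with hF
    set R : (ℕ × ℤ) ⊕ ℤ → Finset ℕ :=
      Sum.elim (fun i => GoodF t0 (2 * x) x (2 * x) (fun _ => G i.1 i.2) (-i.2))
        (fun s => SF t0 (2 * x) x (2 * x) (fun _ => {-s})) with hR
    have hI1m : ∀ i ∈ I1, Even i.1 ∧ Fit i.1 i.2 := by
      intro i hi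
      rw [hI1, mem_filter] at hi
      exact hi.2
    obtain ⟨S, hSP, hScard, hSR⟩ := hX₅ (2 * x) (by omega) x (2 * x) (by omega) hAB ((ℕ × ℤ) ⊕ ℤ) I F R (by
      rintro (i | s) hi
      · rw [hI, inl_mem_disjSum] at hi
        obtain ⟨h1, h4⟩ := hI1m i hi
        have hs := sysG (N := i.1) (X := 2 * x) h1 (by omega) h4
        exact ⟨hs.card, hs.loc⟩
      · rw [hI, inr_mem_disjSum] at hi
        simp only [mem_insert, mem_singleton] at hi
        exact sysT hi) (by
      rintro (i | s) hi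
      · exact GoodF_SF _ _ _ _ _ _
      · exact Subset.refl _) (by
      rw [hI, card_disjSum]
      have h1 : I1.card ≤ (x ^ 2 + 1) * 2 := by
        refine (card_filter_le _ _).trans ?_
        rw [card_product, card_range]
        have : ({2, -2} : Finset ℤ).card = 2 := by decide
        rw [this]
      have h2 : ({2, -2} : Finset ℤ).card = 2 := by decide
      rw [h2]
      nlinarith [sq_nonneg x]) m (by
      rw [hm]
      have h1 : Real.log ((2 * x : ℕ) : ℝ) ^ (2 + 1) ≤ 8 * Real.log x ^ 3 := by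
        calc _ ≤ (2 * Real.log x) ^ 3 := pow_le_pow_left₀ hlX0.le hlX 3
          _ = _ := by ring
      have := mul_le_mul_of_nonneg_left h1 hK.le
      linarith) hmP
    refine ⟨S ∩ (SF t0 (2 * x) x (2 * x) (fun _ => {-2}) ∪ SF t0 (2 * x) x (2 * x) (fun _ => {-(-2)})), ?_, ?_, ?_⟩
    · intro p hp
      rw [mem_inter] at hp
      have hpP := hSP hp.1
      unfold PI at hpP
      rw [mem_filter, mem_Ioc] at hpP
      refine ⟨hpP.2, hpP.1.1, hpP.1.2, ?_⟩
      have hp1r : (1 : ℝ) ≤ p := by exact_mod_cast hpP.2.one_lt.le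
      have hpz : (p : ℝ) ^ (1 / ((2 * t0 : ℕ) : ℝ)) ≤ ((2 * x : ℕ) : ℝ) ^ (1 / (t0 : ℝ)) := by
        have h1 : (p : ℝ) ^ (1 / ((2 * t0 : ℕ) : ℝ)) ≤ (p : ℝ) ^ (1 / (t0 : ℝ)) := by
          apply Real.rpow_le_rpow_of_exponent_le hp1r
          apply one_div_le_one_div_of_le ht0r
          push_cast
          linarith
        refine h1.trans (Real.rpow_le_rpow (by positivity) ?_ (by positivity))
        exact_mod_cast hpP.1.2
      rcases mem_union.1 hp.2 with h | h
      · left
        unfold SF at h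
        rw [mem_filter] at h
        intro q hq hd
        by_contra hcon
        push Not at hcon
        apply h.2.2.2 q hq (hcon.trans hpz) (-2) (by simp)
        have : (-2 : ℤ) - p = -((p : ℤ) + 2) := by ring
        rw [this]
        exact (dvd_neg).2 hd
      · right
        unfold SF at h
        rw [mem_filter] at h
        intro q hq hd
        by_contra hcon
        push Not at hcon
        apply h.2.2.2 q hq (hcon.trans hpz) (-(-2)) (by simp)
        have : (-(-2) : ℤ) - p = -((p : ℤ) - 2) := by ring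
        rw [this]
        exact (dvd_neg).2 hd
    · -- the number of elements
      have hT : ∀ s : ℤ, (s = 2 ∨ s = -2) → ((S ∩ SF t0 (2 * x) x (2 * x) (fun _ => {-s})).card : ℝ) ≤
          16 * K * (C0 + 1) * C2 * Real.log x ^ 2 := by
        intro s hs
        have h1 := hSR (Sum.inr s) (by
          rw [hI, inr_mem_disjSum]
          simpa using hs)
        have h2 : R (Sum.inr s) = SF t0 (2 * x) x (2 * x) (fun _ => {-s}) := rfl
        have h3 : F (Sum.inr s) = fun _ => {-s} := rfl
        rw [h2, h3] at h1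
        have h4 := hX₂ (2 * x) (by omega) _ (sysT hs) x (2 * x) (by omega) hAB
        have h5 : VF (fun _ => {-s}) (2 * x) ≤ C2 / Real.log x ^ 2 := by
          refine (hVup (-s) (by rcases hs with rfl | rfl <;> simp) (2 * x) (by omega)).trans ?_
          apply div_le_div_of_nonneg_left hC2.le (by positivity)
          exact pow_le_pow_left₀ hl.le hlX1 2
        have hV0 : 0 ≤ VF (fun _ => {-s}) (2 * x) := (VF_mono (sysT hs).loc le_rfl).2
        have hp0 : 0 ≤ m / ((PI x (2 * x)).card : ℝ) := by positivity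
        have h6 := (abs_le.1 h1).2
        have h7 := mul_le_mul_of_nonneg_left h4 hp0
        have h8 : 0 ≤ m / (PI x (2 * x)).card * ((((2 * x : ℕ) : ℝ) - x) * VF (fun _ => {-s}) (2 * x)) := by
          rw [hABe]
          positivity
        have h9 := mul_le_mul_of_nonneg_right e2 h8
        have h10 : ((S ∩ SF t0 (2 * x) x (2 * x) (fun _ => {-s})).card : ℝ) ≤
            (C0 + 1) * (m / (PI x (2 * x)).card * ((((2 * x : ℕ) : ℝ) - x) * VF (fun _ => {-s}) (2 * x))) := by
          linarith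
        refine h10.trans ?_
        rw [hABe]
        have h11 : m / (PI x (2 * x)).card * (x * VF (fun _ => {-s}) (2 * x)) ≤
            m * (2 * Real.log x / x) * (x * (C2 / Real.log x ^ 2)) :=
          mul_le_mul hp2 (mul_le_mul_of_nonneg_left h5 hx0.le) (by positivity) (by positivity)
        refine (mul_le_mul_of_nonneg_left h11 (by positivity)).trans (le_of_eq ?_)
        rw [hm]
        field_simp
        ring
      have h1 := hT 2 (Or.inl rfl)
      have h2 := hT (-2) (Or.inr rfl)
      have h3 : ((S ∩ (SF t0 (2 * x) x (2 * x) (fun _ => {-2}) ∪ SF t0 (2 * x) x (2 * x) (fun _ => {-(-2)}))).card : ℝ) ≤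
          ((S ∩ SF t0 (2 * x) x (2 * x) (fun _ => {-2})).card : ℝ) +
          ((S ∩ SF t0 (2 * x) x (2 * x) (fun _ => {-(-2)})).card : ℝ) := by
        rw [inter_union_distrib_left]
        exact_mod_cast card_union_le _ _
      have h4 : Real.log x ^ 2 ≤ (i : ℝ) ^ 2 := by
        apply pow_le_pow_left₀ hl.le
        rw [hx]
        push_cast
        rw [Real.log_pow]
        have := Real.log_two_lt_d9
        have h0 : (0 : ℝ) ≤ i := Nat.cast_nonneg i
        nlinarith
      have h5 := mul_le_mul_of_nonneg_left h4 (show 0 ≤ 32 * K * (C0 + 1) * C2 by positivity)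
      linarith
    · intro _ N hNe hN2 s hf
      have hsys := sysG (N := N) (X := 2 * x) hNe (by omega) hf
      have hmem : (Sum.inl (N, s) : (ℕ × ℤ) ⊕ ℤ) ∈ I := by
        rw [hI, inl_mem_disjSum, hI1, mem_filter, mem_product, mem_range]
        exact ⟨⟨by simp only; omega, by simpa using hf.1⟩, hNe, hf⟩
      have h1 := hSR _ hmem
      have h2 : R (Sum.inl (N, s)) = GoodF t0 (2 * x) x (2 * x) (fun _ => G N s) (-s) := rfl
      have h3 : F (Sum.inl (N, s)) = fun _ => G N s := rfl
      rw [h2, h3] at h1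
      have g1 := hX₁ (2 * x) (by omega) _ _ hsys x (2 * x) (by omega) hAB
      have hp0 : 0 ≤ m / ((PI x (2 * x)).card : ℝ) := by positivity
      have hV := hVlow (2 * x) (by omega) _ hsys.card hsys.loc
      have hV0 : 0 ≤ VF (fun _ => G N s) (2 * x) := (VF_mono hsys.loc le_rfl).2
      set E : ℝ := m / (PI x (2 * x)).card * ((((2 * x : ℕ) : ℝ) - x) * VF (fun _ => G N s) (2 * x)) with hE
      have hE0 : 0 ≤ E := by
        rw [hE, hABe]
        positivity
      have g4 : c0 * E ≤ m / (PI x (2 * x)).card * (GoodF t0 (2 * x) x (2 * x) (fun _ => G N s) (-s)).card := by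
        have := mul_le_mul_of_nonneg_left g1 hp0
        refine le_trans (le_of_eq ?_) this
        rw [hE]
        ring
      have g5 := (abs_le.1 h1).1
      have g6 := mul_le_mul_of_nonneg_right e1 hE0
      have g7 : c0 / 2 * E ≤ ((S ∩ GoodF t0 (2 * x) x (2 * x) (fun _ => G N s) (-s)).card : ℝ) := by linarith
      have g8 : K * cV / 4 * Real.log x ≤ E := by
        rw [hE, hABe]
        have h4 : cV / (2 * Real.log x) ^ 3 ≤ VF (fun _ => G N s) (2 * x) := by
          refine le_trans ?_ hV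
          apply div_le_div_of_nonneg_left hcV.le (by positivity)
          exact pow_le_pow_left₀ hlX0.le hlX 3
        have h5 : m * (Real.log x / (4 * x)) * (x * (cV / (2 * Real.log x) ^ 3)) ≤
            m / (PI x (2 * x)).card * (x * VF (fun _ => G N s) (2 * x)) :=
          mul_le_mul hp1 (mul_le_mul_of_nonneg_left h4 hx0.le) (by positivity) hp0
        refine le_trans ?_ h5
        rw [hm]
        have h6 : K * 8 * Real.log x ^ 3 * (Real.log x / (4 * x)) * (x * (cV / (2 * Real.log x) ^ 3)) =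
            K * cV / 4 * Real.log x := by
          field_simp
          ring
        rw [h6]
      have hNx : (N : ℝ) ≤ (x : ℝ) ^ 2 := by exact_mod_cast hN2
      have hroot : ∀ a : ℝ, 0 < a → (N : ℝ) ^ (1 / (2 * a)) ≤ ((2 * x : ℕ) : ℝ) ^ (1 / a) := by
        intro a ha
        calc (N : ℝ) ^ (1 / (2 * a)) ≤ ((x : ℝ) ^ 2) ^ (1 / (2 * a)) :=
              Real.rpow_le_rpow (Nat.cast_nonneg _) hNx (by positivity)
          _ = (x : ℝ) ^ (1 / a) := by
              rw [← Real.rpow_natCast, ← Real.rpow_mul hx0.le]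
              congr 1
              push_cast
              field_simp
          _ ≤ _ := by
              apply Real.rpow_le_rpow hx0.le _ (by positivity)
              exact_mod_cast (by omega : x ≤ 2 * x)
      refine ⟨S ∩ GoodF t0 (2 * x) x (2 * x) (fun _ => G N s) (-s), ?_, ?_⟩
      · intro p hp
        rw [mem_inter] at hp
        have hpg := hp.2
        unfold GoodF at hpg
        rw [mem_filter, mem_Ioc] at hpg
        obtain ⟨⟨p1, p2⟩, pp, pt, ⟨pr1, pr2, pr3⟩, pF⟩ := hpg
        have hNz : (N : ℝ) ^ (1 / ((2 * t0 : ℕ) : ℝ)) ≤ ((2 * x : ℕ) : ℝ) ^ (1 / (t0 : ℝ)) := by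
          have := hroot t0 ht0r
          push_cast
          push_cast at this
          exact this
        have hNz9 : (N : ℝ) ^ (1 / 18 : ℝ) ≤ ((2 * x : ℕ) : ℝ) ^ (1 / 9 : ℝ) := by
          have := hroot 9 (by norm_num)
          norm_num at this ⊢
          exact this
        have hfree : ∀ h ∈ G N s, ∀ k : ℤ, (k = h - p ∨ k = -(h - p)) → Free ((N : ℝ) ^ (1 / ((2 * t0 : ℕ) : ℝ))) k := by
          intro h hh k hk q hq hd
          by_contra hcon
          push Not at hcon
          apply pF q hq (hcon.trans hNz) h hh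
          rcases hk with rfl | rfl
          · exact hd
          · exact (dvd_neg).1 hd
        have hs1 : s = 2 ∨ s = -2 := hf.1
        refine ⟨mem_inter.2 ⟨hp.1, ?_⟩, ?_, ?_, ?_⟩
        · have hSF : p ∈ SF t0 (2 * x) x (2 * x) (fun _ => {-s}) := by
            unfold SF
            rw [mem_filter, mem_Ioc]
            refine ⟨⟨p1, p2⟩, pp, pt, ?_⟩
            intro q hq hqX h hh
            rw [mem_singleton] at hh
            rw [hh]
            exact pF q hq hqX (-s) (by simp [G])
          rcases hs1 with rfl | rfl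
          · exact mem_union_left _ hSF
          · exact mem_union_right _ hSF
        · exact hfree (-s) (by simp [G]) _ (Or.inr (by ring))
        · have e : (-s - (p : ℤ)).natAbs = ((p : ℤ) + s).natAbs := by
            rw [← Int.natAbs_neg]
            congr 1
            ring
          have hn : 1 < ((p : ℤ) + s).natAbs := by
            rcases hs1 with rfl | rfl <;> omega
          refine ((P2_iff hn _).2 ⟨by rw [← e]; exact pr2, fun q hq hd => ?_⟩ :
            P2 ((N : ℝ) ^ (1 / 18 : ℝ)) ((p : ℤ) + s).natAbs)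
          refine lt_of_le_of_lt hNz9 (pr3 q hq ?_)
          rw [Int.natCast_dvd, e]
          exact hd
        · exact hfree N (by simp [G]) _ (Or.inl (by ring))
      · refine le_trans ?_ g7
        have := mul_le_mul_of_nonneg_left g8 (show 0 ≤ c0 / 2 by positivity)
        refine le_trans ?_ this
        have h7 : c0 / 2 * (K * cV / 4 * Real.log x) = c0 * K * cV / 8 * Real.log x := by ring
        rw [h7]
        have h8 : 0 ≤ c0 * K * cV * Real.log x := by positivity
        linarith
  choose S hS hSc hSN using step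
  have hl2 : 0 < Real.log 2 := Real.log_pos (by norm_num)
  refine ⟨2 * t0, c0 * K * cV / 32, 64 * K * (C0 + 1) * C2 / Real.log 2 ^ 3, {p | ∃ i, p ∈ S i}, by omega, by positivity,
    by positivity, ?_, ?_, ?_⟩
  · rintro p ⟨i, hi⟩
    obtain ⟨h1, _, _, h2⟩ := hS i p hi
    exact ⟨h1, h2⟩
  · intro x hx
    set L := Nat.log 2 x with hL
    have hL1 : 1 ≤ L := (Nat.le_log_iff_pow_le (by norm_num) (by omega)).2 (by simpa using hx)
    refine ⟨(range (L + 1)).biUnion S, ?_, ?_⟩
    · rintro p ⟨i, hi⟩ hpx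
      rw [mem_biUnion]
      refine ⟨i, ?_, hi⟩
      rw [mem_range]
      have h1 := (hS i p hi).2.1
      have h2 : 2 ^ i ≤ x := by omega
      have h3 : i ≤ L := (Nat.le_log_iff_pow_le (by norm_num) (by omega)).2 h2
      omega
    · have h1 : (((range (L + 1)).biUnion S).card : ℝ) ≤ ∑ i ∈ range (L + 1), ((S i).card : ℝ) := by
        exact_mod_cast card_biUnion_le
      refine h1.trans ?_
      have h2 : ∑ i ∈ range (L + 1), ((S i).card : ℝ) ≤
          ∑ _i ∈ range (L + 1), 32 * K * (C0 + 1) * C2 * (L : ℝ) ^ 2 := by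
        apply sum_le_sum
        intro i hi
        rw [mem_range] at hi
        refine (hSc i).trans ?_
        apply mul_le_mul_of_nonneg_left _ (by positivity)
        apply pow_le_pow_left₀ (by positivity)
        exact_mod_cast (by omega : i ≤ L)
      refine h2.trans ?_
      rw [sum_const, card_range, nsmul_eq_mul]
      push_cast
      have hLr : (1 : ℝ) ≤ L := by exact_mod_cast hL1
      have h3 : (L : ℝ) * Real.log 2 ≤ Real.log x := by
        have h4 : 2 ^ L ≤ x := Nat.pow_log_le_self 2 (by omega)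
        have h5 : ((2 : ℝ)) ^ L ≤ x := by exact_mod_cast h4
        have h6 := Real.log_le_log (by positivity) h5
        rwa [Real.log_pow] at h6
      have h4 : (L : ℝ) ≤ Real.log x / Real.log 2 := by
        rw [le_div_iff₀ hl2]
        exact h3
      have h5 : (L : ℝ) ^ 3 ≤ (Real.log x / Real.log 2) ^ 3 := pow_le_pow_left₀ (by positivity) h4 3
      calc ((L : ℝ) + 1) * (32 * K * (C0 + 1) * C2 * (L : ℝ) ^ 2) ≤ (2 * L) * (32 * K * (C0 + 1) * C2 * (L : ℝ) ^ 2) := by
            apply mul_le_mul_of_nonneg_right _ (by positivity)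
            linarith
        _ = 64 * K * (C0 + 1) * C2 * (L : ℝ) ^ 3 := by ring
        _ ≤ 64 * K * (C0 + 1) * C2 * (Real.log x / Real.log 2) ^ 3 := mul_le_mul_of_nonneg_left h5 (by positivity)
        _ = _ := by rw [div_pow]; ring
  · refine ⟨(2 ^ (M + 3)) ^ 2, ?_⟩
    intro N hN hNe s hf
    have hM0 : 0 < 2 ^ M := by positivity
    have hN0 : 0 < N := lt_of_lt_of_le (by positivity) hN
    obtain ⟨i, hi1, hi2⟩ : ∃ i : ℕ, N < (2 ^ i) ^ 2 ∧ (2 ^ i) ^ 2 ≤ 4 * N := by
      refine ⟨Nat.log 4 N + 1, ?_, ?_⟩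
      · rw [← pow_mul, mul_comm, pow_mul]
        exact Nat.lt_pow_succ_log_self (by norm_num) N
      · rw [← pow_mul, mul_comm, pow_mul]
        have h1 : (2 ^ 2) ^ Nat.log 4 N ≤ N := Nat.pow_log_le_self 4 (by omega)
        rw [pow_succ]
        omega
    have hMi : M + 3 < i := by
      by_contra hcon
      push Not at hcon
      have h1 : (2 ^ i) ^ 2 ≤ (2 ^ (M + 3)) ^ 2 := Nat.pow_le_pow_left (Nat.pow_le_pow_right (by norm_num) hcon) 2
      omega
    obtain ⟨T, hT, hTc⟩ := hSN i (by omega) N hNe hi1.le s hf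
    have hNr : (0 : ℝ) < N := by exact_mod_cast hN0
    have h2i : (2 : ℕ) ≤ 2 ^ i := by
      calc 2 = 2 ^ 1 := by norm_num
        _ ≤ 2 ^ i := Nat.pow_le_pow_right (by norm_num) (by omega)
    refine ⟨T, ?_, ?_⟩
    · intro p hp
      obtain ⟨a1, a2, a3, a4⟩ := hT p hp
      obtain ⟨b1, b2, b3, _⟩ := hS i p a1
      refine ⟨⟨i, a1⟩, ?_, ?_, a2, a3, a4⟩
      · rw [Real.sqrt_lt' (by exact_mod_cast b1.pos)]
        have h1 : N < p ^ 2 := by nlinarith
        exact_mod_cast h1
      · have h1 : p ≠ 2 * 2 ^ i := by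
          rintro rfl
          have h2 : (2 : ℕ) ∣ 2 * 2 ^ i := dvd_mul_right _ _
          have h3 := (Nat.prime_dvd_prime_iff_eq Nat.prime_two b1).1 h2
          omega
        have h2 : p < 2 * 2 ^ i := by omega
        have h3 : p ^ 2 < 16 * N := by nlinarith
        have e : 4 * Real.sqrt N = Real.sqrt (16 * N) := by
          rw [Real.sqrt_mul (by norm_num), show (16 : ℝ) = 4 ^ 2 by norm_num, Real.sqrt_sq (by norm_num)]
        rw [e, Real.lt_sqrt (by positivity)]
        exact_mod_cast h3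
    · refine le_trans ?_ hTc
      have h6 : (N : ℝ) ≤ ((2 ^ i : ℕ) : ℝ) ^ 2 := by exact_mod_cast hi1.le
      have h7 := Real.log_le_log hNr h6
      rw [Real.log_pow, Nat.cast_ofNat] at h7
      have h8 : 0 < c0 * K * cV / 32 := by positivity
      have h9 := mul_le_mul_of_nonneg_left h7 h8.le
      linarith

end Pool.Agent.Results.MP_b454d1_nt.SparseWindows
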